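import Mathlib
import Pool.Agent.Run7.h610.DJDefs
import Pool.Agent.Run7.h610.DJMain

/-!
# Every weakly connected 2-dijoin can be partitioned into two dijoins

The definitions `Dig`, `Dig.outArcs`, `Dig.inArcs`, `Dig.IsDicut`, `Dig.IsKDijoin`,
`Dig.supportGraph`, `Dig.WeaklyConnected` are in `Pool/Agent/Run7/h610/DJDefs.lean`.

Proof idea: the vector `g(v) = d_F⁺(v) - d_F⁻(v)` satisfies `g(X) ≥ 2` for every nontrivial
trace `X` of a set that no arc of `D` enters; these traces form a family closed under union and
intersection.  Such a `g` splits as `g = y + z` with `y, z` integral of total `0` and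
`y(X), z(X) ≥ 1` (induction on the number of odd entries: glue at a tight set separating two odd
vertices, otherwise `g` is the midpoint of two smaller instances, and the exchange property of
integral base polyhedra applies).  As `F` is weakly connected, `y` is the boundary of an integral
vector `x` on `F`, and `F₁ = {x ≥ 1}`, `F₂ = {x ≤ 0}` are dijoins.
-/

open Run7.h610.DJ

namespace Pool.Agent.Results.MP_eda7df_co.TwoDijoins

universe u v

/-- For every finite digraph `D` and every weakly connected 2-dijoin `F` of `D` there is a
partition `F = F₁ ∪ F₂` into two dijoins of `D`. -/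
theorem result {V : Type u} {A : Type v} [Finite V] [Finite A] (D : Dig V A) (F : Set A)
    (hconn : D.WeaklyConnected F) (h2 : D.IsKDijoin 2 F) :
    ∃ F₁ F₂ : Set A, F₁ ∪ F₂ = F ∧ F₁ ∩ F₂ = ∅ ∧ D.IsKDijoin 1 F₁ ∧ D.IsKDijoin 1 F₂ :=
  two_dijoins D F hconn h2

end Pool.Agent.Results.MP_eda7df_co.TwoDijoins
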